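import Pool.Agent.Q240.Dom.Stab

set_option autoImplicit false

/-!
The extremal theorem: `n^2 - 2 e(G) + 2 K_{p+1}(G)` for graphs all of whose edges lie in cliques
with `p + 1` vertices.
-/

namespace Pool.Agent.Q240.Dom

open Finset Pool.Agent.TH477.PA

variable {V : Type} [Fintype V]

/-- number of ordered adjacent pairs -/
noncomputable def EE (G : SimpleGraph V) : ℝ := ∑ x, ∑ y, ind (G.Adj x y)

/-- number of ordered adjacent pairs inside the classes -/
noncomputable def Ins (G : SimpleGraph V) (cls : V → ℕ) : ℝ :=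
  ∑ x, ∑ y, ind (G.Adj x y ∧ cls x = cls y)

/-- number of ordered pairs between the classes -/
noncomputable def Mx (cls : V → ℕ) : ℝ := ∑ x, ∑ y, ind (cls x ≠ cls y)

/-- size of a class -/
noncomputable def sz (cls : V → ℕ) (i : ℕ) : ℝ := ∑ x, ind (cls x = i)

/-- missing neighbours in other classes -/
noncomputable def mis (G : SimpleGraph V) (cls : V → ℕ) (x : V) : ℝ :=
  ∑ y, ind (cls x ≠ cls y ∧ ¬ G.Adj x y)

theorem Ins_nonneg (G : SimpleGraph V) (cls : V → ℕ) : 0 ≤ Ins G cls :=
  Finset.sum_nonneg fun _ _ => Finset.sum_nonneg fun _ _ => ind_nonneg _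

theorem ff_sum (G : SimpleGraph V) (cls : V → ℕ) :
    ∑ x, ∑ y, ff G cls x y = EE G + Ins G cls - Mx cls := by
  unfold ff EE Ins Mx
  simp only [Finset.sum_add_distrib, Finset.sum_sub_distrib]

theorem mis_sum (G : SimpleGraph V) (cls : V → ℕ) :
    ∑ x, mis G cls x = Mx cls - EE G + Ins G cls := by
  unfold mis EE Ins Mx
  rw [← Finset.sum_sub_distrib, ← Finset.sum_add_distrib]
  refine Finset.sum_congr rfl fun x _ => ?_
  rw [← Finset.sum_sub_distrib, ← Finset.sum_add_distrib]
  refine Finset.sum_congr rfl fun y _ => ?_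
  by_cases h1 : G.Adj x y
  · by_cases h2 : cls x = cls y
    · rw [ind_neg (p := cls x ≠ cls y ∧ ¬ G.Adj x y) (fun h => h.2 h1),
        ind_neg (p := cls x ≠ cls y) (fun h => h h2), ind_pos h1,
        ind_pos (p := G.Adj x y ∧ cls x = cls y) ⟨h1, h2⟩]
      norm_num
    · rw [ind_neg (p := cls x ≠ cls y ∧ ¬ G.Adj x y) (fun h => h.2 h1),
        ind_pos (p := cls x ≠ cls y) h2, ind_pos h1,
        ind_neg (p := G.Adj x y ∧ cls x = cls y) (fun h => h2 h.2)]
      norm_num
  · by_cases h2 : cls x = cls y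
    · rw [ind_neg (p := cls x ≠ cls y ∧ ¬ G.Adj x y) (fun h => h.1 h2),
        ind_neg (p := cls x ≠ cls y) (fun h => h h2), ind_neg h1,
        ind_neg (p := G.Adj x y ∧ cls x = cls y) (fun h => h1 h.1)]
      norm_num
    · rw [ind_pos (p := cls x ≠ cls y ∧ ¬ G.Adj x y) ⟨h2, h1⟩,
        ind_pos (p := cls x ≠ cls y) h2, ind_neg h1,
        ind_neg (p := G.Adj x y ∧ cls x = cls y) (fun h => h1 h.1)]
      norm_num

theorem class_sum (p : ℕ) (cls : V → ℕ) (hc : ∀ x, cls x < p) :
    ∑ i ∈ Finset.range p, sz cls i = Fintype.card V := by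
  unfold sz
  rw [Finset.sum_comm]
  have h : ∀ x : V, ∑ i ∈ Finset.range p, ind (cls x = i) = 1 := by
    intro x
    rw [Finset.sum_eq_single (cls x)]
    · exact ind_pos rfl
    · intro b _ hb
      exact ind_neg (fun h => hb h.symm)
    · intro hx
      exact absurd (Finset.mem_range.2 (hc x)) hx
  rw [Finset.sum_congr rfl fun x _ => h x]
  simp

theorem class_sq_sum (p : ℕ) (cls : V → ℕ) (hc : ∀ x, cls x < p) :
    ∑ i ∈ Finset.range p, (sz cls i) ^ 2 = (Fintype.card V : ℝ) ^ 2 - Mx cls := by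
  have h1 : ∀ i, (sz cls i) ^ 2 = ∑ x : V, ∑ y : V, ind (cls x = i) * ind (cls y = i) := by
    intro i
    unfold sz
    rw [sq, Finset.sum_mul_sum]
  rw [Finset.sum_congr rfl fun i _ => h1 i]
  rw [Finset.sum_comm]
  have h2 : (Fintype.card V : ℝ) ^ 2 - Mx cls = ∑ x : V, ∑ y : V, (1 - ind (cls x ≠ cls y)) := by
    unfold Mx
    simp only [Finset.sum_sub_distrib, Finset.sum_const, nsmul_eq_mul, Finset.card_univ]
    ring
  rw [h2]
  refine Finset.sum_congr rfl fun x _ => ?_
  rw [Finset.sum_comm]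
  refine Finset.sum_congr rfl fun y _ => ?_
  rw [Finset.sum_eq_single (cls x)]
  · rw [ind_pos (p := cls x = cls x) rfl, one_mul]
    rw [ind_congr (p := cls x ≠ cls y) (q := ¬ (cls y = cls x)) ⟨fun h h' => h h'.symm,
      fun h h' => h h'.symm⟩, ind_not]
    ring
  · intro b _ hb
    rw [ind_neg (p := cls x = b) (fun h => hb h.symm), zero_mul]
  · intro hx
    exact absurd (Finset.mem_range.2 (hc x)) hx

theorem class_sq (p : ℕ) (hp : 1 ≤ p) (cls : V → ℕ) (hc : ∀ x, cls x < p) :
    ∑ i ∈ Finset.range p, (sz cls i - Fintype.card V / p) ^ 2 =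
      (1 - 1 / p) * (Fintype.card V : ℝ) ^ 2 - Mx cls := by
  have h1 : ∀ i, (sz cls i - Fintype.card V / p) ^ 2 =
      (sz cls i) ^ 2 - 2 * (Fintype.card V / p) * sz cls i + (Fintype.card V / p : ℝ) ^ 2 := by
    intro i; ring
  rw [Finset.sum_congr rfl fun i _ => h1 i, Finset.sum_add_distrib, Finset.sum_sub_distrib,
    ← Finset.mul_sum, class_sum p cls hc, class_sq_sum p cls hc]
  simp only [Finset.sum_const, nsmul_eq_mul, Finset.card_range]
  have hp' : (p : ℝ) ≠ 0 := by positivity
  field_simp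
  ring

theorem Mx_le (p : ℕ) (hp : 1 ≤ p) (cls : V → ℕ) (hc : ∀ x, cls x < p) :
    Mx cls ≤ (1 - 1 / p) * (Fintype.card V : ℝ) ^ 2 := by
  have h := class_sq p hp cls hc
  have h2 : 0 ≤ ∑ i ∈ Finset.range p, (sz cls i - Fintype.card V / p) ^ 2 :=
    Finset.sum_nonneg fun _ _ => sq_nonneg _
  linarith

/-- counting related pairs by the cliques which contain them -/
theorem cover (G : SimpleGraph V) (k c : ℕ) (R : V → V → Prop)
    (hR : ∀ x y, R x y → ∃ S ∈ KK G univ k, x ∈ S ∧ y ∈ S)
    (hT : ∀ S ∈ KK G univ k, ∃ T : Finset (V × V), (∀ x ∈ S, ∀ y ∈ S, R x y → (x, y) ∈ T) ∧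
      T.card ≤ c) :
    ∑ x, ∑ y, ind (R x y) ≤ (c : ℝ) * (KK G univ k).card := by
  classical
  choose! T hT1 hT2 using hT
  have h1 : ∑ x, ∑ y, ind (R x y) =
      (((univ : Finset (V × V)).filter (fun q => R q.1 q.2)).card : ℝ) := by
    rw [card_filter_ind, ← Finset.univ_product_univ, Finset.sum_product]
  rw [h1]
  have h2 : (univ : Finset (V × V)).filter (fun q => R q.1 q.2) ⊆ (KK G univ k).biUnion T := by
    intro q hq
    obtain ⟨S, hS, hx, hy⟩ := hR q.1 q.2 (Finset.mem_filter.1 hq).2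
    exact Finset.mem_biUnion.2 ⟨S, hS, hT1 S hS q.1 hx q.2 hy (Finset.mem_filter.1 hq).2⟩
  have h3 : ((univ : Finset (V × V)).filter (fun q => R q.1 q.2)).card ≤
      (KK G univ k).card * c :=
    (Finset.card_le_card h2).trans (Finset.card_biUnion_le_card_mul _ _ _ hT2)
  have h4 : (((univ : Finset (V × V)).filter (fun q => R q.1 q.2)).card : ℝ) ≤
      (((KK G univ k).card * c : ℕ) : ℝ) := by exact_mod_cast h3
  push_cast at h4
  linarith

theorem cover_cross (G : SimpleGraph V) (p : ℕ) (hp : 3 ≤ p) (cls : V → ℕ)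
    (hc : ∀ x, cls x < p)
    (hG : ∀ x y, G.Adj x y → ∃ S ∈ KK G univ (p + 1), x ∈ S ∧ y ∈ S) :
    EE G - Ins G cls ≤ ((p : ℝ) + 2) * (p - 1) * (KK G univ (p + 1)).card := by
  classical
  have h1 : EE G - Ins G cls = ∑ x, ∑ y, ind (G.Adj x y ∧ cls x ≠ cls y) := by
    unfold EE Ins
    rw [← Finset.sum_sub_distrib]
    refine Finset.sum_congr rfl fun x _ => ?_
    rw [← Finset.sum_sub_distrib]
    refine Finset.sum_congr rfl fun y _ => ?_
    rw [ind_and, ind_and]
    have : ind (cls x ≠ cls y) = 1 - ind (cls x = cls y) := ind_not _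
    rw [this]; ring
  rw [h1]
  have h2 := cover G (p + 1) ((p + 2) * (p - 1)) (fun x y => G.Adj x y ∧ cls x ≠ cls y)
    (fun x y h => hG x y h.1) ?_
  · refine h2.trans (le_of_eq ?_)
    push_cast [Nat.cast_sub (show 1 ≤ p by omega)]
    ring
  · intro S hS
    have hS' := mem_KK.1 hS
    have hcard : (Finset.range p).card < S.card := by
      rw [Finset.card_range, hS'.1.2]; omega
    obtain ⟨x0, hx0, y0, hy0, hne, heq⟩ := Finset.exists_ne_map_eq_of_card_lt_of_maps_to hcard
      (f := cls) (fun x _ => Finset.mem_coe.2 (Finset.mem_range.2 (hc x)))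
    refine ⟨(S.offDiag.erase (x0, y0)).erase (y0, x0), ?_, ?_⟩
    · intro x hx y hy hR
      refine Finset.mem_erase.2 ⟨?_, Finset.mem_erase.2 ⟨?_, ?_⟩⟩
      · intro h
        rw [Prod.mk.injEq] at h
        exact hR.2 (by rw [h.1, h.2]; exact heq.symm)
      · intro h
        rw [Prod.mk.injEq] at h
        exact hR.2 (by rw [h.1, h.2]; exact heq)
      · exact Finset.mem_offDiag.2 ⟨hx, hy, hR.1.ne⟩
    · have e1 : (y0, x0) ∈ S.offDiag.erase (x0, y0) := by
        refine Finset.mem_erase.2 ⟨?_, Finset.mem_offDiag.2 ⟨hy0, hx0, hne.symm⟩⟩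
        intro h
        rw [Prod.mk.injEq] at h
        exact hne h.2
      have e2 : (x0, y0) ∈ S.offDiag := Finset.mem_offDiag.2 ⟨hx0, hy0, hne⟩
      rw [Finset.card_erase_of_mem e1, Finset.card_erase_of_mem e2, Finset.offDiag_card, hS'.1.2]
      obtain ⟨m, rfl⟩ : ∃ m, p = m + 3 := ⟨p - 3, by omega⟩
      have : (m + 3 + 1) * (m + 3 + 1) - (m + 3 + 1) - 1 - 1 = (m + 3 + 2) * (m + 3 - 1) := by
        have e3 : (m + 3 + 1) * (m + 3 + 1) = (m + 3 + 2) * (m + 2) + (m + 3 + 1) + 2 := by ring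
        have e4 : m + 3 - 1 = m + 2 := by omega
        rw [e3, e4]
        omega
      rw [this]

theorem cover_typical (G : SimpleGraph V) (p : ℕ) (hp : 3 ≤ p) (At : Finset V)
    (hAt : ∀ S ∈ KK G univ (p + 1), ∃ a ∈ S, a ∈ At)
    (hG : ∀ x y, G.Adj x y → ∃ S ∈ KK G univ (p + 1), x ∈ S ∧ y ∈ S) :
    EE G - 2 * At.card * Fintype.card V ≤ (p : ℝ) * (p - 1) * (KK G univ (p + 1)).card := by
  classical
  have h2 := cover G (p + 1) (p * (p - 1)) (fun x y => G.Adj x y ∧ x ∉ At ∧ y ∉ At)
    (fun x y h => hG x y h.1) ?_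
  · have h3 : EE G ≤ ∑ x, ∑ y, ind (G.Adj x y ∧ x ∉ At ∧ y ∉ At) +
        2 * At.card * Fintype.card V := by
      have h4 : ∀ x y : V, ind (G.Adj x y) ≤ ind (G.Adj x y ∧ x ∉ At ∧ y ∉ At) +
          (ind (x ∈ At) + ind (y ∈ At)) := by
        intro x y
        by_cases hx : x ∈ At
        · rw [ind_pos hx]
          linarith [ind_le_one (G.Adj x y), ind_nonneg (G.Adj x y ∧ x ∉ At ∧ y ∉ At),
            ind_nonneg (y ∈ At)]
        · by_cases hy : y ∈ At
          · rw [ind_pos hy]
            linarith [ind_le_one (G.Adj x y), ind_nonneg (G.Adj x y ∧ x ∉ At ∧ y ∉ At),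
              ind_nonneg (x ∈ At)]
          · have : ind (G.Adj x y) ≤ ind (G.Adj x y ∧ x ∉ At ∧ y ∉ At) :=
              ind_mono fun h => ⟨h, hx, hy⟩
            linarith [ind_nonneg (x ∈ At), ind_nonneg (y ∈ At)]
      have h5 : ∑ x : V, ind (x ∈ At) = At.card := by
        have := card_filter_ind (univ : Finset V) (fun x => x ∈ At)
        rw [← this]
        congr 2
        ext x; simp
      calc EE G ≤ ∑ x : V, ∑ y : V, (ind (G.Adj x y ∧ x ∉ At ∧ y ∉ At) +
          (ind (x ∈ At) + ind (y ∈ At))) :=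
            Finset.sum_le_sum fun x _ => Finset.sum_le_sum fun y _ => h4 x y
        _ = _ := by
            simp only [Finset.sum_add_distrib, Finset.sum_const, nsmul_eq_mul, Finset.card_univ,
              h5, ← Finset.mul_sum]
            ring
    have h6 : (((p * (p - 1) : ℕ) : ℝ)) = (p : ℝ) * (p - 1) := by
      push_cast [Nat.cast_sub (show 1 ≤ p by omega)]
      ring
    rw [h6] at h2
    linarith
  · intro S hS
    have hS' := mem_KK.1 hS
    obtain ⟨a, haS, haA⟩ := hAt S hS
    refine ⟨(S.erase a).offDiag, ?_, ?_⟩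
    · intro x hx y hy hR
      refine Finset.mem_offDiag.2 ⟨Finset.mem_erase.2 ⟨?_, hx⟩, Finset.mem_erase.2 ⟨?_, hy⟩,
        hR.1.ne⟩
      · rintro rfl; exact hR.2.1 haA
      · rintro rfl; exact hR.2.2 haA
    · rw [Finset.offDiag_card, Finset.card_erase_of_mem haS, hS'.1.2]
      have e : p + 1 - 1 = p := by omega
      rw [e, Nat.mul_sub, mul_one]

open scoped Classical in
/-- typical common neighbours of `S` in the class `c` -/
noncomputable def cand (G : SimpleGraph V) (cls : V → ℕ) (At S : Finset V) (c : ℕ) : Finset V :=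
  univ.filter (fun w => cls w = c ∧ w ∉ At ∧ ∀ s ∈ S, G.Adj s w)

theorem mem_cand {G : SimpleGraph V} {cls : V → ℕ} {At S : Finset V} {c : ℕ} {w : V} :
    w ∈ cand G cls At S c ↔ cls w = c ∧ w ∉ At ∧ ∀ s ∈ S, G.Adj s w := by
  classical
  unfold cand
  simp

theorem cand_card (G : SimpleGraph V) (cls : V → ℕ) (At S : Finset V) (c : ℕ) (t : ℝ)
    (ht : ∀ s ∈ S, mis G cls s ≤ t) (hA : (At.card : ℝ) ≤ t)
    (hS : ∀ s ∈ S, cls s ≠ c) :
    sz cls c - (S.card + 1) * t ≤ ((cand G cls At S c).card : ℝ) := by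
  classical
  have h1 : ∀ w : V, ind (cls w = c) ≤ ind (w ∈ cand G cls At S c) + ind (w ∈ At) +
      ∑ s ∈ S, ind (cls s ≠ cls w ∧ ¬ G.Adj s w) := by
    intro w
    have hs0 : 0 ≤ ∑ s ∈ S, ind (cls s ≠ cls w ∧ ¬ G.Adj s w) :=
      Finset.sum_nonneg fun _ _ => ind_nonneg _
    by_cases hw : cls w = c
    · rw [ind_pos hw]
      by_cases hA' : w ∈ At
      · rw [ind_pos hA']
        linarith [ind_nonneg (w ∈ cand G cls At S c)]
      · by_cases hadj : ∀ s ∈ S, G.Adj s w
        · rw [ind_pos (mem_cand.2 ⟨hw, hA', hadj⟩)]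
          linarith [ind_nonneg (w ∈ At)]
        · push Not at hadj
          obtain ⟨s, hs, hns⟩ := hadj
          have : ind (cls s ≠ cls w ∧ ¬ G.Adj s w) ≤
              ∑ s ∈ S, ind (cls s ≠ cls w ∧ ¬ G.Adj s w) :=
            Finset.single_le_sum (f := fun s => ind (cls s ≠ cls w ∧ ¬ G.Adj s w))
              (fun _ _ => ind_nonneg _) hs
          rw [ind_pos (p := cls s ≠ cls w ∧ ¬ G.Adj s w) ⟨by rw [hw]; exact hS s hs, hns⟩] at this
          linarith [ind_nonneg (w ∈ cand G cls At S c), ind_nonneg (w ∈ At)]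
    · rw [ind_neg hw]
      linarith [ind_nonneg (w ∈ cand G cls At S c), ind_nonneg (w ∈ At)]
  have hcard : ∀ A : Finset V, ∑ x : V, ind (x ∈ A) = A.card := by
    intro A
    have := card_filter_ind (univ : Finset V) (fun x => x ∈ A)
    rw [← this]
    congr 2
    ext x; simp
  have h2 : sz cls c ≤ ((cand G cls At S c).card : ℝ) + At.card + ∑ s ∈ S, mis G cls s := by
    calc sz cls c ≤ ∑ w : V, (ind (w ∈ cand G cls At S c) + ind (w ∈ At) +
        ∑ s ∈ S, ind (cls s ≠ cls w ∧ ¬ G.Adj s w)) := Finset.sum_le_sum fun w _ => h1 w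
      _ = _ := by
        rw [Finset.sum_add_distrib, Finset.sum_add_distrib, hcard, hcard, Finset.sum_comm]
        rfl
  have h3 : ∑ s ∈ S, mis G cls s ≤ S.card * t := by
    calc ∑ s ∈ S, mis G cls s ≤ ∑ s ∈ S, t := Finset.sum_le_sum ht
      _ = _ := by rw [Finset.sum_const, nsmul_eq_mul]
  linarith

/-- extension of a partial transversal clique to further classes -/
theorem extend (G : SimpleGraph V) (cls : V → ℕ) (p : ℕ) (At : Finset V)
    (hne : ∀ S : Finset V, ∀ c < p, (∀ s ∈ S, s ∉ At) → (∀ s ∈ S, cls s ≠ c) → S.card ≤ p →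
      (cand G cls At S c).Nonempty)
    (J : Finset ℕ) (hJ : J ⊆ Finset.range p) (S : Finset V) (hcl : G.IsClique (S : Set V))
    (hSA : ∀ s ∈ S, s ∉ At) (hSJ : ∀ s ∈ S, cls s ∈ J) (hScard : S.card = J.card + 1)
    (D : Finset ℕ) : D ⊆ Finset.range p → Disjoint D J → ∃ S' : Finset V, S ⊆ S' ∧
      G.IsClique (S' : Set V) ∧ (∀ s ∈ S', s ∉ At) ∧ (∀ s ∈ S', cls s ∈ D ∪ J) ∧
      S'.card = (D ∪ J).card + 1 ∧ ∀ s ∈ S', cls s ∈ J → s ∈ S := by
  classical
  induction D using Finset.induction_on with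
  | empty =>
    intro _ _
    exact ⟨S, Finset.Subset.refl S, hcl, hSA, by simpa using hSJ, by simpa using hScard,
      fun s hs _ => hs⟩
  | insert c D hcD ih =>
    intro hD hdis
    have hD' : D ⊆ Finset.range p := (Finset.subset_insert c D).trans hD
    have hdis' : Disjoint D J := Finset.disjoint_of_subset_left (Finset.subset_insert c D) hdis
    obtain ⟨S', h1, h2, h3, h4, h5, h6⟩ := ih hD' hdis'
    have hcp : c < p := Finset.mem_range.1 (hD (Finset.mem_insert_self c D))
    have hcJ : c ∉ J := Finset.disjoint_left.1 hdis (Finset.mem_insert_self c D)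
    have hcU : c ∉ D ∪ J := by
      intro h
      rcases Finset.mem_union.1 h with h | h
      · exact hcD h
      · exact hcJ h
    have hSc : S'.card ≤ p := by
      rw [h5]
      have h7 : insert c (D ∪ J) ⊆ Finset.range p := by
        intro x hx
        rcases Finset.mem_insert.1 hx with rfl | hx
        · exact Finset.mem_range.2 hcp
        · rcases Finset.mem_union.1 hx with h | h
          · exact hD' h
          · exact hJ h
      have h8 := Finset.card_le_card h7
      rw [Finset.card_insert_of_notMem hcU, Finset.card_range] at h8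
      exact h8
    obtain ⟨w, hw⟩ := hne S' c hcp h3 (fun s hs h => hcU (h ▸ h4 s hs)) hSc
    obtain ⟨hw1, hw2, hw3⟩ := mem_cand.1 hw
    have hwS : w ∉ S' := fun h => hcU (hw1 ▸ h4 w h)
    refine ⟨insert w S', h1.trans (Finset.subset_insert w S'), ?_, ?_, ?_, ?_, ?_⟩
    · rw [Finset.coe_insert, SimpleGraph.isClique_insert]
      exact ⟨h2, fun b hb _ => (hw3 b hb).symm⟩
    · intro s hs
      rcases Finset.mem_insert.1 hs with rfl | hs
      · exact hw2
      · exact h3 s hs
    · intro s hs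
      rw [Finset.insert_union]
      rcases Finset.mem_insert.1 hs with rfl | hs
      · rw [hw1]; exact Finset.mem_insert_self _ _
      · exact Finset.mem_insert_of_mem (h4 s hs)
    · rw [Finset.insert_union, Finset.card_insert_of_notMem hcU,
        Finset.card_insert_of_notMem hwS, h5]
    · intro s hs hsJ
      rcases Finset.mem_insert.1 hs with rfl | hs
      · rw [hw1] at hsJ; exact absurd hsJ hcJ
      · exact h6 s hs hsJ

/-- many cliques through a typical inside edge -/
theorem many (G : SimpleGraph V) (cls : V → ℕ) (p : ℕ) (hp : 3 ≤ p) (hc : ∀ x, cls x < p)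
    (At : Finset V) (m : ℝ) (hm : 0 < m)
    (hne : ∀ S : Finset V, ∀ c < p, (∀ s ∈ S, s ∉ At) → (∀ s ∈ S, cls s ≠ c) → S.card ≤ p →
      m ≤ ((cand G cls At S c).card : ℝ))
    (u v : V) (huv : G.Adj u v) (hcl : cls u = cls v) (hu : u ∉ At) (hv : v ∉ At) :
    m ^ 2 ≤ ((KK G univ (p + 1)).card : ℝ) := by
  classical
  obtain ⟨a, b, hap, hbp, hau, hbu, hab⟩ : ∃ a b : ℕ, a < p ∧ b < p ∧ a ≠ cls u ∧ b ≠ cls u ∧
      a ≠ b := by
    have hu' := hc u
    by_cases h0 : cls u = 0
    · exact ⟨1, 2, by omega, by omega, by omega, by omega, by omega⟩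
    · by_cases h1 : cls u = 1
      · exact ⟨0, 2, by omega, by omega, by omega, by omega, by omega⟩
      · exact ⟨0, 1, by omega, by omega, by omega, by omega, by omega⟩
  have hne' : ∀ S : Finset V, ∀ c < p, (∀ s ∈ S, s ∉ At) → (∀ s ∈ S, cls s ≠ c) → S.card ≤ p →
      (cand G cls At S c).Nonempty := by
    intro S c h1 h2 h3 h4
    have := hne S c h1 h2 h3 h4
    rw [Finset.nonempty_iff_ne_empty]
    intro h
    rw [h] at this
    simp at this
    linarith
  set A : Finset V := cand G cls At {u, v} a with hA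
  set Bf : V → Finset V := fun w => cand G cls At {w, u, v} b with hB
  have hAm : m ≤ (A.card : ℝ) := by
    refine hne {u, v} a hap ?_ ?_ ?_
    · intro s hs
      rcases Finset.mem_insert.1 hs with rfl | hs
      · exact hu
      · rw [Finset.mem_singleton.1 hs]; exact hv
    · intro s hs
      rcases Finset.mem_insert.1 hs with rfl | hs
      · exact hau.symm
      · rw [Finset.mem_singleton.1 hs, ← hcl]; exact hau.symm
    · exact (Finset.card_le_two).trans (by omega)
  have hBm : ∀ w ∈ A, m ≤ ((Bf w).card : ℝ) := by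
    intro w hw
    obtain ⟨hw1, hw2, hw3⟩ := mem_cand.1 hw
    refine hne {w, u, v} b hbp ?_ ?_ ?_
    · intro s hs
      rcases Finset.mem_insert.1 hs with rfl | hs
      · exact hw2
      · rcases Finset.mem_insert.1 hs with rfl | hs
        · exact hu
        · rw [Finset.mem_singleton.1 hs]; exact hv
    · intro s hs
      rcases Finset.mem_insert.1 hs with rfl | hs
      · rw [hw1]; exact hab
      · rcases Finset.mem_insert.1 hs with rfl | hs
        · exact hbu.symm
        · rw [Finset.mem_singleton.1 hs, ← hcl]; exact hbu.symm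
    · exact (Finset.card_le_three).trans hp
  -- the clique of a pair
  have hex : ∀ q : (Σ _ : V, V), q ∈ A.sigma Bf → ∃ S' ∈ KK G univ (p + 1), q.1 ∈ S' ∧ q.2 ∈ S' ∧
      (∀ s ∈ S', cls s = a → s = q.1) ∧ (∀ s ∈ S', cls s = b → s = q.2) := by
    rintro ⟨wa, wb⟩ hq
    obtain ⟨hqa, hqb⟩ := Finset.mem_sigma.1 hq
    simp only at hqa hqb
    obtain ⟨a1, a2, a3⟩ := mem_cand.1 hqa
    obtain ⟨b1, b2, b3⟩ := mem_cand.1 hqb
    have hau' : G.Adj u wa := a3 u (by simp)
    have hav' : G.Adj v wa := a3 v (by simp)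
    have hbu' : G.Adj u wb := b3 u (by simp)
    have hbv' : G.Adj v wb := b3 v (by simp)
    have hba' : G.Adj wa wb := b3 wa (by simp)
    have hclq : G.IsClique (({wb, wa, u, v} : Finset V) : Set V) := by
      rw [Finset.coe_insert, Finset.coe_insert, Finset.coe_insert, Finset.coe_singleton]
      rw [SimpleGraph.isClique_insert, SimpleGraph.isClique_insert, SimpleGraph.isClique_insert]
      refine ⟨⟨⟨SimpleGraph.isClique_singleton v, ?_⟩, ?_⟩, ?_⟩
      · intro x hx _
        rw [Set.mem_singleton_iff.1 hx]; exact huv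
      · intro x hx _
        rcases Set.mem_insert_iff.1 hx with rfl | hx
        · exact hau'.symm
        · rw [Set.mem_singleton_iff.1 hx]; exact hav'.symm
      · intro x hx _
        rcases Set.mem_insert_iff.1 hx with rfl | hx
        · exact hba'.symm
        · rcases Set.mem_insert_iff.1 hx with rfl | hx
          · exact hbu'.symm
          · rw [Set.mem_singleton_iff.1 hx]; exact hbv'.symm
    have hmem : ∀ s ∈ ({wb, wa, u, v} : Finset V), s = wb ∨ s = wa ∨ s = u ∨ s = v := by
      intro s hs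
      simpa using hs
    have hcardS : ({wb, wa, u, v} : Finset V).card = 4 := by
      rw [Finset.card_insert_of_notMem, Finset.card_insert_of_notMem,
        Finset.card_insert_of_notMem, Finset.card_singleton]
      · simp [huv.ne]
      · simp [hau'.ne', hav'.ne']
      · simp [hba'.ne', hbu'.ne', hbv'.ne']
    have hcardJ : ({b, a, cls u} : Finset ℕ).card = 3 := by
      rw [Finset.card_insert_of_notMem, Finset.card_insert_of_notMem, Finset.card_singleton]
      · simp [hau]
      · simp [hab.symm, hbu]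
    have hJsub : ({b, a, cls u} : Finset ℕ) ⊆ Finset.range p := by
      intro x hx
      rcases Finset.mem_insert.1 hx with rfl | hx
      · exact Finset.mem_range.2 hbp
      · rcases Finset.mem_insert.1 hx with rfl | hx
        · exact Finset.mem_range.2 hap
        · rw [Finset.mem_singleton.1 hx]; exact Finset.mem_range.2 (hc u)
    obtain ⟨S', h1, h2, h3, h4, h5, h6⟩ := extend G cls p At hne' {b, a, cls u} hJsub
      {wb, wa, u, v} hclq
      (by
        intro s hs
        rcases hmem s hs with rfl | rfl | rfl | rfl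
        · exact b2
        · exact a2
        · exact hu
        · exact hv)
      (by
        intro s hs
        rcases hmem s hs with rfl | rfl | rfl | rfl
        · simp [b1]
        · simp [a1]
        · simp
        · simp [hcl])
      (by rw [hcardS, hcardJ])
      (Finset.range p \ {b, a, cls u}) Finset.sdiff_subset Finset.sdiff_disjoint
    have hU : (Finset.range p \ {b, a, cls u}) ∪ {b, a, cls u} = Finset.range p :=
      Finset.sdiff_union_of_subset hJsub
    refine ⟨S', mem_KK.2 ⟨⟨Finset.subset_univ _, ?_⟩, h2⟩, h1 (by simp), h1 (by simp), ?_, ?_⟩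
    · rw [h5, hU, Finset.card_range]
    · intro s hs hsa
      have hsS := h6 s hs (by rw [hsa]; simp)
      rcases hmem s hsS with rfl | rfl | rfl | rfl
      · exact absurd (hsa.symm.trans b1) hab
      · rfl
      · exact absurd hsa.symm hau
      · exact absurd (hcl.trans hsa).symm hau
    · intro s hs hsb
      have hsS := h6 s hs (by rw [hsb]; simp)
      rcases hmem s hsS with rfl | rfl | rfl | rfl
      · rfl
      · exact absurd (a1.symm.trans hsb) hab
      · exact absurd hsb.symm hbu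
      · exact absurd (hcl.trans hsb).symm hbu
  choose! Sf hS1 hS2 hS3 hS4 hS5 using hex
  have hle : (A.sigma Bf).card ≤ (KK G univ (p + 1)).card := by
    refine Finset.card_le_card_of_injOn Sf (fun q hq => hS1 q hq) ?_
    intro q hq q' hq' heq
    have hq := Finset.mem_coe.1 hq
    have hq' := Finset.mem_coe.1 hq'
    have e1 : q.1 = q'.1 := by
      refine hS4 q' hq' q.1 (heq ▸ hS2 q hq) ?_
      exact (mem_cand.1 (Finset.mem_sigma.1 hq).1).1
    have e2 : q.2 = q'.2 := by
      refine hS5 q' hq' q.2 (heq ▸ hS3 q hq) ?_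
      exact (mem_cand.1 (Finset.mem_sigma.1 hq).2).1
    obtain ⟨q1, q2⟩ := q
    obtain ⟨q1', q2'⟩ := q'
    simp only at e1 e2
    rw [e1, e2]
  rw [Finset.card_sigma] at hle
  have hle' : ((∑ w ∈ A, (Bf w).card : ℕ) : ℝ) ≤ ((KK G univ (p + 1)).card : ℝ) := by
    exact_mod_cast hle
  push_cast at hle'
  refine le_trans ?_ hle'
  calc m ^ 2 = m * m := sq m
    _ ≤ (A.card : ℝ) * m := mul_le_mul_of_nonneg_right hAm hm.le
    _ = ∑ w ∈ A, m := by rw [Finset.sum_const, nsmul_eq_mul]
    _ ≤ _ := Finset.sum_le_sum hBm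

end Pool.Agent.Q240.Dom
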