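import Pool.Agent.Q240.Dom.Core

set_option autoImplicit false

/-!
The extremal theorem for graphs all of whose edges lie in cliques with `p + 1` vertices.
-/

namespace Pool.Agent.Q240.Dom

open Finset Pool.Agent.TH477.PA

theorem arithA (p n2 E I M K δ : ℝ) (hp : 3 ≤ p) (hδ : 0 < δ) (hn2 : 0 ≤ n2)
    (h1 : E + I - M ≤ δ * n2) (h2 : M ≤ (1 - 1 / p) * n2) (h3 : E - I ≤ (p + 2) * (p - 1) * K)
    (h4 : E ≤ (1 - 1 / p - δ) * n2) :
    ((p + 4) / (p * (p + 2)) + 2 / 5 * δ) * n2 ≤ n2 - E + 2 * K := by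
  have hp0 : 0 < p := by linarith
  set q : ℝ := (p + 2) * (p - 1) with hq
  have hq10 : 10 ≤ q := by rw [hq]; nlinarith
  set a : ℝ := 1 - 1 / p with ha
  have hqa : q * ((p + 4) / (p * (p + 2))) = q - (q - 4) * a - 2 * a := by
    rw [hq, ha]
    field_simp
    ring
  have hK : 2 * E - a * n2 - δ * n2 ≤ q * K := by linarith
  have hq0 : 0 < q := by linarith
  have hgoal : q * (((p + 4) / (p * (p + 2)) + 2 / 5 * δ) * n2) ≤ q * (n2 - E + 2 * K) := by
    have e1 : q * (((p + 4) / (p * (p + 2)) + 2 / 5 * δ) * n2) =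
        (q - (q - 4) * a - 2 * a) * n2 + 2 / 5 * (q * δ * n2) := by
      rw [← hqa]; ring
    rw [e1]
    have h5 : (q - 4) * E ≤ (q - 4) * ((a - δ) * n2) :=
      mul_le_mul_of_nonneg_left h4 (by linarith)
    have h6 : 0 ≤ (3 / 5 * q - 6) * (δ * n2) :=
      mul_nonneg (by linarith) (mul_nonneg hδ.le hn2)
    nlinarith
  exact le_of_mul_le_mul_left hgoal hq0

theorem arithC (p : ℝ) (hp : 3 ≤ p) :
    (p + 4) / (p * (p + 2)) + 2 / (p ^ 2 * (p + 2)) =
      1 / p + 2 / p ^ 2 - 9 * (2 / (9 * (p ^ 2 * (p + 2)))) := by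
  have hp0 : 0 < p := by linarith
  field_simp
  ring

theorem arithB2 (p n2 E I M K δ θ A : ℝ) (hp : 3 ≤ p) (hn2 : 0 ≤ n2)
    (hθ : 0 ≤ θ) (hI : 0 ≤ I) (hδθ : δ ≤ θ)
    (h1 : E + I - M ≤ δ * n2) (h2 : M ≤ (1 - 1 / p) * n2) (hA : A ≤ θ * n2)
    (h3 : E - 2 * A ≤ p * (p - 1) * K) :
    (1 / p + 2 / p ^ 2 - 9 * θ) * n2 ≤ n2 - E + 2 * K := by
  have hp0 : 0 < p := by linarith
  set q : ℝ := p * (p - 1) with hq
  have hq6 : 6 ≤ q := by rw [hq]; nlinarith
  have hq0 : 0 < q := by linarith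
  set a : ℝ := 1 - 1 / p with ha
  have hqa : q * (1 / p + 2 / p ^ 2) = q - (q - 2) * a := by
    rw [hq, ha]
    field_simp
    ring
  have hE : E ≤ (a + δ) * n2 := by linarith
  have hgoal : q * ((1 / p + 2 / p ^ 2 - 9 * θ) * n2) ≤ q * (n2 - E + 2 * K) := by
    have e1 : q * ((1 / p + 2 / p ^ 2 - 9 * θ) * n2) = (q - (q - 2) * a) * n2 - 9 * (q * θ * n2) := by
      rw [← hqa]; ring
    rw [e1]
    have h5 : (q - 2) * E ≤ (q - 2) * ((a + δ) * n2) :=
      mul_le_mul_of_nonneg_left hE (by linarith)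
    have h6 : (q - 2) * (δ * n2) ≤ (q - 2) * (θ * n2) :=
      mul_le_mul_of_nonneg_left (mul_le_mul_of_nonneg_right hδθ hn2) (by linarith)
    have h7 : 0 ≤ θ * n2 := mul_nonneg hθ hn2
    have h8 : 0 ≤ (8 * q - 2) * (θ * n2) := mul_nonneg (by linarith) h7
    nlinarith
  exact le_of_mul_le_mul_left hgoal hq0

theorem arithB1 (p n E I M K δ θ : ℝ) (hp : 3 ≤ p) (hn : 0 ≤ n)
    (hθ : 0 ≤ θ) (hI : 0 ≤ I) (hδθ : δ ≤ θ)
    (h1 : E + I - M ≤ δ * n ^ 2) (h2 : M ≤ (1 - 1 / p) * n ^ 2)
    (h3 : ((1 / p - (p + 2) * θ) * n) ^ 2 ≤ K) :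
    (1 / p + 2 / p ^ 2 - 9 * θ) * n ^ 2 ≤ n ^ 2 - E + 2 * K := by
  have hp0 : 0 < p := by linarith
  have hn2 : 0 ≤ n ^ 2 := by positivity
  have hE : E ≤ (1 - 1 / p + δ) * n ^ 2 := by linarith
  have h4 : (1 / p ^ 2 - 2 * ((p + 2) / p * θ)) * n ^ 2 ≤ K := by
    refine le_trans ?_ h3
    rw [mul_pow]
    refine mul_le_mul_of_nonneg_right ?_ hn2
    have : (1 / p - (p + 2) * θ) ^ 2 = 1 / p ^ 2 - 2 * ((p + 2) / p * θ) + ((p + 2) * θ) ^ 2 := by
      field_simp
      ring
    rw [this]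
    have := sq_nonneg ((p + 2) * θ)
    linarith
  have h5 : (p + 2) / p ≤ 5 / 3 := by
    rw [div_le_div_iff₀ hp0 (by norm_num)]
    linarith
  have h6 : (p + 2) / p * θ ≤ 5 / 3 * θ := mul_le_mul_of_nonneg_right h5 hθ
  have h7 : (1 / p ^ 2 - 2 * (5 / 3 * θ)) * n ^ 2 ≤ K := by
    refine le_trans (mul_le_mul_of_nonneg_right ?_ hn2) h4
    linarith
  have h8 : δ * n ^ 2 ≤ θ * n ^ 2 := mul_le_mul_of_nonneg_right hδθ hn2
  have h9 : 0 ≤ θ * n ^ 2 := mul_nonneg hθ hn2
  have e : 2 / p ^ 2 = 2 * (1 / p ^ 2) := by ring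
  rw [e]
  nlinarith

/-- the extremal theorem -/
theorem core (p : ℕ) (hp : 3 ≤ p) : ∃ ε : ℝ, 0 < ε ∧ ε ≤ 1 / 10 ∧ ∃ n0 : ℕ,
    ∀ (V : Type) [Fintype V] (G : SimpleGraph V), n0 ≤ Fintype.card V →
    (∀ x y, G.Adj x y → ∃ S ∈ KK G univ (p + 1), x ∈ S ∧ y ∈ S) →
    (((p : ℝ) + 4) / (p * (p + 2)) + ε) * (Fintype.card V : ℝ) ^ 2 ≤
      (Fintype.card V : ℝ) ^ 2 - EE G + 2 * (KK G univ (p + 1)).card := by
  obtain ⟨k, rfl⟩ : ∃ k, p = k + 1 := ⟨p - 1, by omega⟩
  set p : ℝ := ((k + 1 : ℕ) : ℝ) with hpdef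
  have hp3 : (3 : ℝ) ≤ p := by rw [hpdef]; exact_mod_cast hp
  have hp0 : 0 < p := by linarith
  set θ : ℝ := 2 / (9 * (p ^ 2 * (p + 2))) with hθdef
  have hθ : 0 < θ := by positivity
  have hθ1 : θ ≤ 1 / 200 := by
    rw [hθdef, div_le_div_iff₀ (by positivity) (by norm_num)]
    have : 45 ≤ p ^ 2 * (p + 2) := by nlinarith
    nlinarith
  have hmargin : 0 < 1 / p - (p + 2) * θ := by
    have : (p + 2) * θ = 2 / (9 * p ^ 2) := by
      rw [hθdef]; field_simp
    rw [this, sub_pos, div_lt_div_iff₀ (by positivity) hp0]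
    nlinarith
  set δ : ℝ := θ ^ 2 / 3 with hδdef
  have hδ : 0 < δ := by positivity
  have hδθ : δ ≤ θ := by
    rw [hδdef]; nlinarith
  obtain ⟨η, hη, hst⟩ := stab k δ hδ
  set ε : ℝ := min (2 / 5 * δ) (2 / (p ^ 2 * (p + 2))) with hεdef
  have hε : 0 < ε := by
    rw [hεdef]; exact lt_min (by positivity) (by positivity)
  have hε1 : ε ≤ 2 / 5 * δ := min_le_left _ _
  have hε2 : ε ≤ 2 / (p ^ 2 * (p + 2)) := min_le_right _ _
  obtain ⟨n0, hn0⟩ := exists_nat_gt (1 / η)
  refine ⟨ε, hε, ?_, n0 + 1, ?_⟩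
  · have : δ ≤ 1 / 200 := hδθ.trans hθ1
    linarith
  intro V _ G hn hG
  classical
  set n : ℝ := (Fintype.card V : ℝ) with hndef
  have hn1 : (1 : ℝ) ≤ n := by
    rw [hndef]
    exact_mod_cast (by omega : 1 ≤ Fintype.card V)
  have hnη : 1 / η < n := by
    refine hn0.trans_le ?_
    rw [hndef]
    exact_mod_cast (by omega : n0 ≤ Fintype.card V)
  have hnpos : 0 < n := by linarith
  have hn2 : 0 ≤ n ^ 2 := by positivity
  set K : ℝ := ((KK G univ (k + 1 + 1)).card : ℝ) with hKdef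
  have hcl1 : (p + 4) / (p * (p + 2)) ≤ 7 / 15 := by
    rw [div_le_div_iff₀ (by positivity) (by norm_num)]
    nlinarith
  have hEn : EE G ≤ n ^ 2 := by
    calc EE G ≤ ∑ x : V, ∑ y : V, (1 : ℝ) :=
          Finset.sum_le_sum fun x _ => Finset.sum_le_sum fun y _ => ind_le_one _
      _ = n ^ 2 := by
          simp only [Finset.sum_const, nsmul_eq_mul, Finset.card_univ, mul_one]
          rw [hndef]; ring
  by_cases hKbig : n ^ 2 < K
  · have h1 : ((p + 4) / (p * (p + 2)) + ε) * n ^ 2 ≤ 1 * n ^ 2 := by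
      refine mul_le_mul_of_nonneg_right ?_ hn2
      have : δ ≤ 1 / 200 := hδθ.trans hθ1
      linarith
    linarith
  · have hKle : K ≤ n ^ 2 := not_lt.1 hKbig
    have hfew : ((KK G univ (k + 2)).card : ℝ) ≤ η * n ^ (k + 2) := by
      have h1 : n ^ 2 ≤ η * n ^ (k + 2) := by
        have hk1 : n ≤ n ^ k := le_self_pow₀ hn1 (by omega)
        have h2 : 1 ≤ η * n ^ k := by
          have h3 : 1 < n * η := by
            rw [div_lt_iff₀ hη] at hnη
            exact hnη
          nlinarith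
        calc n ^ 2 = 1 * n ^ 2 := by ring
          _ ≤ η * n ^ k * n ^ 2 := mul_le_mul_of_nonneg_right h2 hn2
          _ = _ := by ring
      exact hKle.trans h1
    obtain ⟨cls, hc, hsum⟩ := hst V G univ n (by rw [Finset.card_univ]) hfew
    rw [ff_sum] at hsum
    have hMle : Mx cls ≤ (1 - 1 / p) * n ^ 2 := Mx_le (k + 1) (by omega) cls hc
    have hIns := Ins_nonneg G cls
    by_cases hcase : EE G ≤ (1 - 1 / p - δ) * n ^ 2
    · have h3 := cover_cross G (k + 1) hp cls hc hG
      have h4 := arithA p (n ^ 2) (EE G) (Ins G cls) (Mx cls) K δ hp3 hδ hn2 hsum hMle h3 hcase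
      refine le_trans (mul_le_mul_of_nonneg_right ?_ hn2) h4
      linarith
    · have hcase' : (1 - 1 / p - δ) * n ^ 2 < EE G := not_le.1 hcase
      have hfin : (1 / p + 2 / p ^ 2 - 9 * θ) * n ^ 2 ≤ n ^ 2 - EE G + 2 * K := by
        -- atypical vertices
        set At : Finset V := univ.filter (fun x => θ * n < mis G cls x) with hAt
        have hmis : ∑ x, mis G cls x ≤ θ ^ 2 * n ^ 2 := by
          rw [mis_sum]
          have : 3 * δ = θ ^ 2 := by rw [hδdef]; ring
          nlinarith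
        have hmis0 : ∀ x, 0 ≤ mis G cls x := fun x => Finset.sum_nonneg fun _ _ => ind_nonneg _
        have hAtcard : (At.card : ℝ) ≤ θ * n := by
          have h1 : (At.card : ℝ) * (θ * n) ≤ θ ^ 2 * n ^ 2 := by
            calc (At.card : ℝ) * (θ * n) = ∑ x ∈ At, θ * n := by
                  rw [Finset.sum_const, nsmul_eq_mul]
              _ ≤ ∑ x ∈ At, mis G cls x :=
                  Finset.sum_le_sum fun x hx => (Finset.mem_filter.1 hx).2.le
              _ ≤ ∑ x, mis G cls x :=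
                  Finset.sum_le_sum_of_subset_of_nonneg (Finset.subset_univ _)
                    fun x _ _ => hmis0 x
              _ ≤ _ := hmis
          have h2 : 0 < θ * n := by positivity
          refine le_of_mul_le_mul_right ?_ h2
          calc (At.card : ℝ) * (θ * n) ≤ θ ^ 2 * n ^ 2 := h1
            _ = θ * n * (θ * n) := by ring
        have htyp : ∀ s, s ∉ At → mis G cls s ≤ θ * n := by
          intro s hs
          by_contra h
          exact hs (Finset.mem_filter.2 ⟨Finset.mem_univ _, not_le.1 h⟩)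
        by_cases hin : ∃ u v, G.Adj u v ∧ cls u = cls v ∧ u ∉ At ∧ v ∉ At
        · obtain ⟨u, v, huv, hcl, hu, hv⟩ := hin
          have hsz : ∀ c < k + 1, n / p - θ * n ≤ sz cls c := by
            intro c hck
            have h1 := class_sq (k + 1) (by omega) cls hc
            have h2 : (sz cls c - n / p) ^ 2 ≤
                ∑ i ∈ Finset.range (k + 1), (sz cls i - n / p) ^ 2 :=
              Finset.single_le_sum (f := fun i => (sz cls i - n / p) ^ 2)
                (fun _ _ => sq_nonneg _) (Finset.mem_range.2 hck)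
            have h3 : (sz cls c - n / p) ^ 2 ≤ (θ * n) ^ 2 := by
              refine h2.trans ?_
              rw [hndef, hpdef, h1]
              rw [← hndef, ← hpdef]
              have h4 : 3 * δ = θ ^ 2 := by rw [hδdef]; ring
              have h5 : (θ * n) ^ 2 = 3 * δ * n ^ 2 := by rw [h4]; ring
              rw [h5]
              have h6 : 0 ≤ δ * n ^ 2 := by positivity
              nlinarith
            have h4 : |sz cls c - n / p| ≤ |θ * n| := sq_le_sq.1 h3
            rw [abs_of_pos (show 0 < θ * n by positivity)] at h4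
            have := (abs_le.1 h4).1
            linarith
          have hm : 0 < (1 / p - (p + 2) * θ) * n := by positivity
          have h3 := many G cls (k + 1) hp hc At ((1 / p - (p + 2) * θ) * n) hm
            (by
              intro S c hcp hSA hSc hScard
              have h4 := cand_card G cls At S c (θ * n) (fun s hs => htyp s (hSA s hs)) hAtcard hSc
              refine le_trans ?_ h4
              have h5 := hsz c hcp
              have h6 : (S.card : ℝ) ≤ p := by rw [hpdef]; exact_mod_cast hScard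
              have h7 : ((S.card : ℝ) + 1) * (θ * n) ≤ (p + 1) * (θ * n) :=
                mul_le_mul_of_nonneg_right (by linarith) (by positivity)
              have h8 : (1 / p - (p + 2) * θ) * n = n / p - θ * n - (p + 1) * (θ * n) := by
                field_simp
                ring
              rw [h8]
              linarith)
            u v huv hcl hu hv
          exact arithB1 p n (EE G) (Ins G cls) (Mx cls) K δ θ hp3 hnpos.le hθ.le hIns hδθ hsum
            hMle h3
        · push Not at hin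
          have hAtS : ∀ S ∈ KK G univ (k + 1 + 1), ∃ a ∈ S, a ∈ At := by
            intro S hS
            have hS' := mem_KK.1 hS
            have hcard : (Finset.range (k + 1)).card < S.card := by
              rw [Finset.card_range, hS'.1.2]; omega
            obtain ⟨x0, hx0, y0, hy0, hne, heq⟩ :=
              Finset.exists_ne_map_eq_of_card_lt_of_maps_to hcard
              (f := cls) (fun x _ => Finset.mem_coe.2 (Finset.mem_range.2 (hc x)))
            have hadj : G.Adj x0 y0 := hS'.2 hx0 hy0 hne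
            by_cases hx : x0 ∈ At
            · exact ⟨x0, hx0, hx⟩
            · exact ⟨y0, hy0, hin x0 y0 hadj heq hx⟩
          have h3 := cover_typical G (k + 1) hp At hAtS hG
          have h4 : (At.card : ℝ) * n ≤ θ * n ^ 2 := by
            calc (At.card : ℝ) * n ≤ θ * n * n := mul_le_mul_of_nonneg_right hAtcard hnpos.le
              _ = _ := by ring
          refine arithB2 p (n ^ 2) (EE G) (Ins G cls) (Mx cls) K δ θ (At.card * n) hp3 hn2 hθ.le
            hIns hδθ hsum hMle h4 ?_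
          have e : EE G - 2 * ((At.card : ℝ) * n) = EE G - 2 * At.card * n := by ring
          rw [e]
          exact h3
      refine le_trans (mul_le_mul_of_nonneg_right ?_ hn2) hfin
      have := arithC p hp3
      rw [← hθdef] at this
      linarith

end Pool.Agent.Q240.Dom
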