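import Mathlib
import Pool.Agent.TH477.PA.Defs

set_option autoImplicit false

/-!
Few cliques of size `p + 2`: a stability theorem after Füredi with `p + 1` classes.
-/

namespace Pool.Agent.Q240.Dom

open Finset Pool.Agent.TH477.PA

variable {V : Type}

open scoped Classical in
/-- the cliques with `k` vertices of `G` inside `W` -/
noncomputable def KK (G : SimpleGraph V) (W : Finset V) (k : ℕ) : Finset (Finset V) :=
  (W.powersetCard k).filter (fun S => G.IsClique (S : Set V))

theorem mem_KK {G : SimpleGraph V} {W : Finset V} {k : ℕ} {S : Finset V} :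
    S ∈ KK G W k ↔ (S ⊆ W ∧ S.card = k) ∧ G.IsClique (S : Set V) := by
  classical
  unfold KK
  rw [Finset.mem_filter, Finset.mem_powersetCard]

open scoped Classical in
/-- the neighbours of `a` in `W` -/
noncomputable def nb (G : SimpleGraph V) (W : Finset V) (a : V) : Finset V :=
  W.filter (fun y => G.Adj a y)

theorem mem_nb {G : SimpleGraph V} {W : Finset V} {a y : V} :
    y ∈ nb G W a ↔ y ∈ W ∧ G.Adj a y := by
  classical
  unfold nb
  rw [Finset.mem_filter]

theorem KK_mono {G : SimpleGraph V} {W W' : Finset V} (h : W ⊆ W') (k : ℕ) :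
    KK G W k ⊆ KK G W' k := by
  intro S hS
  rw [mem_KK] at hS ⊢
  exact ⟨⟨hS.1.1.trans h, hS.1.2⟩, hS.2⟩

theorem sum_KK (G : SimpleGraph V) (W : Finset V) (k : ℕ) :
    ∑ a ∈ W, (KK G (nb G W a) k).card = (k + 1) * (KK G W (k + 1)).card := by
  classical
  have h1 : (k + 1) * (KK G W (k + 1)).card = ∑ T ∈ KK G W (k + 1), T.card := by
    rw [Finset.sum_congr (s₁ := KK G W (k + 1)) rfl
      (g := fun _ => k + 1) (fun T hT => (mem_KK.1 hT).1.2)]
    rw [Finset.sum_const, smul_eq_mul, mul_comm]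
  rw [h1, ← Finset.card_sigma, ← Finset.card_sigma]
  refine Finset.card_nbij' (fun q => ⟨insert q.1 q.2, q.1⟩) (fun q => ⟨q.2, q.1.erase q.2⟩)
    ?_ ?_ ?_ ?_
  · rintro ⟨a, S⟩ h
    have h' := Finset.mem_sigma.1 (Finset.mem_coe.1 h)
    have ha : a ∈ W := h'.1
    have hS := mem_KK.1 h'.2
    simp only at hS
    have haS : a ∉ S := by
      intro hh
      exact G.loopless.irrefl a (mem_nb.1 (hS.1.1 hh)).2
    refine Finset.mem_coe.2 (Finset.mem_sigma.2 ⟨?_, Finset.mem_insert_self _ _⟩)
    refine mem_KK.2 ⟨⟨?_, ?_⟩, ?_⟩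
    · intro x hx
      rcases Finset.mem_insert.1 hx with rfl | hx
      · exact ha
      · exact (mem_nb.1 (hS.1.1 hx)).1
    · rw [Finset.card_insert_of_notMem haS, hS.1.2]
    · rw [Finset.coe_insert, SimpleGraph.isClique_insert]
      exact ⟨hS.2, fun b hb _ => (mem_nb.1 (hS.1.1 hb)).2⟩
  · rintro ⟨T, a⟩ h
    have h' := Finset.mem_sigma.1 (Finset.mem_coe.1 h)
    have hT := mem_KK.1 h'.1
    have ha : a ∈ T := h'.2
    simp only at hT
    refine Finset.mem_coe.2 (Finset.mem_sigma.2 ⟨hT.1.1 ha, ?_⟩)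
    refine mem_KK.2 ⟨⟨?_, ?_⟩, ?_⟩
    · intro x hx
      have hx' := Finset.mem_erase.1 hx
      exact mem_nb.2 ⟨hT.1.1 hx'.2, hT.2 ha hx'.2 (Ne.symm hx'.1)⟩
    · rw [Finset.card_erase_of_mem ha, hT.1.2]
      rfl
    · exact hT.2.subset (by exact_mod_cast Finset.erase_subset a T)
  · rintro ⟨a, S⟩ h
    have h' := Finset.mem_sigma.1 (Finset.mem_coe.1 h)
    have hS := mem_KK.1 h'.2
    simp only at hS
    have haS : a ∉ S := by
      intro hh
      exact G.loopless.irrefl a (mem_nb.1 (hS.1.1 hh)).2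
    simp [Finset.erase_insert haS]
  · rintro ⟨T, a⟩ h
    have h' := Finset.mem_sigma.1 (Finset.mem_coe.1 h)
    have ha : a ∈ T := h'.2
    simp [Finset.insert_erase ha]

/-- the summand of the stability inequality -/
noncomputable def ff (G : SimpleGraph V) (cls : V → ℕ) (x y : V) : ℝ :=
  ind (G.Adj x y) + ind (G.Adj x y ∧ cls x = cls y) - ind (cls x ≠ cls y)

theorem ff_le (G : SimpleGraph V) (cls : V → ℕ) (x y : V) : ff G cls x y ≤ 2 := by
  unfold ff
  linarith [ind_le_one (G.Adj x y), ind_le_one (G.Adj x y ∧ cls x = cls y),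
    ind_nonneg (cls x ≠ cls y)]

theorem card_nb (G : SimpleGraph V) (W : Finset V) (a : V) :
    ((nb G W a).card : ℝ) = ∑ y ∈ W, ind (G.Adj a y) := by
  classical
  unfold nb
  rw [card_filter_ind]

theorem KK_one (G : SimpleGraph V) (W : Finset V) : (KK G W 1).card = W.card := by
  classical
  have : KK G W 1 = W.powersetCard 1 := by
    unfold KK
    refine Finset.filter_true_of_mem ?_
    intro S hS
    obtain ⟨_, hS2⟩ := Finset.mem_powersetCard.1 hS
    obtain ⟨a, rfl⟩ := Finset.card_eq_one.1 hS2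
    simp
  rw [this, Finset.card_powersetCard, Nat.choose_one_right]

theorem edges_eq (G : SimpleGraph V) (W : Finset V) :
    ∑ x ∈ W, ∑ y ∈ W, ind (G.Adj x y) = 2 * ((KK G W 2).card : ℝ) := by
  have h := sum_KK G W 1
  have h2 : (∑ a ∈ W, ((nb G W a).card : ℝ)) = 2 * ((KK G W 2).card : ℝ) := by
    have h3 : ∑ a ∈ W, (nb G W a).card = 2 * (KK G W 2).card := by
      rw [← h]
      refine Finset.sum_congr rfl fun a _ => ?_
      rw [KK_one]
    exact_mod_cast h3
  rw [← h2]
  refine Finset.sum_congr rfl fun a _ => ?_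
  rw [card_nb]

theorem stab (p : ℕ) : ∀ ε : ℝ, 0 < ε → ∃ δ : ℝ, 0 < δ ∧ ∀ (V : Type) (G : SimpleGraph V)
    (W : Finset V) (N : ℝ), (W.card : ℝ) ≤ N →
    ((KK G W (p + 2)).card : ℝ) ≤ δ * N ^ (p + 2) →
    ∃ cls : V → ℕ, (∀ x, cls x < p + 1) ∧ ∑ x ∈ W, ∑ y ∈ W, ff G cls x y ≤ ε * N ^ 2 := by
  induction p with
  | zero =>
    intro ε hε
    refine ⟨ε / 4, by positivity, ?_⟩
    intro V G W N hN hK
    refine ⟨fun _ => 0, fun _ => Nat.zero_lt_one, ?_⟩
    have h1 : ∀ x y : V, ff G (fun _ => 0) x y = 2 * ind (G.Adj x y) := by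
      intro x y
      unfold ff
      rw [ind_neg (p := (0 : ℕ) ≠ 0) (by simp)]
      rw [ind_congr (p := G.Adj x y ∧ (0 : ℕ) = 0) (q := G.Adj x y) (by simp)]
      ring
    have h2 : ∑ x ∈ W, ∑ y ∈ W, ff G (fun _ => 0) x y =
        2 * ∑ x ∈ W, ∑ y ∈ W, ind (G.Adj x y) := by
      rw [Finset.mul_sum]
      refine Finset.sum_congr rfl fun x _ => ?_
      rw [Finset.mul_sum]
      exact Finset.sum_congr rfl fun y _ => h1 x y
    rw [h2, edges_eq]
    simp only [zero_add] at hK
    linarith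
  | succ p ih =>
    intro ε hε
    obtain ⟨δ', hδ', H⟩ := ih (ε / 2) (by positivity)
    refine ⟨δ' * ε / (8 * (p + 3)), by positivity, ?_⟩
    intro V G W N hN hK
    classical
    have hW0 : (0 : ℝ) ≤ W.card := Nat.cast_nonneg _
    have hN0 : 0 ≤ N := hW0.trans hN
    set B : Finset V := W.filter (fun v => δ' * N ^ (p + 2) < ((KK G (nb G W v) (p + 2)).card : ℝ))
      with hB
    have hBW : B ⊆ W := Finset.filter_subset _ _
    have hBN : (B.card : ℝ) * N ≤ ε / 8 * N ^ 2 := by
      rcases hN0.eq_or_lt with h0 | h0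
      · rw [← h0]; simp
      have h1 : (B.card : ℝ) * (δ' * N ^ (p + 2)) ≤
          ∑ v ∈ W, ((KK G (nb G W v) (p + 2)).card : ℝ) := by
        calc (B.card : ℝ) * (δ' * N ^ (p + 2)) = ∑ v ∈ B, δ' * N ^ (p + 2) := by
              rw [Finset.sum_const, nsmul_eq_mul]
          _ ≤ ∑ v ∈ B, ((KK G (nb G W v) (p + 2)).card : ℝ) :=
              Finset.sum_le_sum fun v hv => (Finset.mem_filter.1 hv).2.le
          _ ≤ _ := Finset.sum_le_sum_of_subset_of_nonneg hBW fun v _ _ => Nat.cast_nonneg _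
      have h2 : ∑ v ∈ W, ((KK G (nb G W v) (p + 2)).card : ℝ) =
          ((p : ℝ) + 3) * ((KK G W (p + 3)).card : ℝ) := by
        have h3 := sum_KK G W (p + 2)
        have h4 : ((∑ a ∈ W, (KK G (nb G W a) (p + 2)).card : ℕ) : ℝ) =
            (((p + 2 + 1) * (KK G W (p + 2 + 1)).card : ℕ) : ℝ) := by rw [h3]
        push_cast at h4
        rw [h4]
        ring_nf
      have h5 : ((KK G W (p + 3)).card : ℝ) ≤ δ' * ε / (8 * (p + 3)) * N ^ (p + 3) := hK
      have h6 : (B.card : ℝ) * (δ' * N ^ (p + 2)) ≤ δ' * ε / 8 * N ^ (p + 3) := by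
        refine h1.trans ?_
        rw [h2]
        have hp3 : (0 : ℝ) < (p : ℝ) + 3 := by positivity
        calc ((p : ℝ) + 3) * ((KK G W (p + 3)).card : ℝ) ≤
            ((p : ℝ) + 3) * (δ' * ε / (8 * (p + 3)) * N ^ (p + 3)) :=
              mul_le_mul_of_nonneg_left h5 hp3.le
          _ = _ := by field_simp
      have h7 : (0 : ℝ) < δ' * N ^ (p + 2) := by positivity
      have h8 : (B.card : ℝ) ≤ ε / 8 * N := by
        refine le_of_mul_le_mul_right ?_ h7
        calc (B.card : ℝ) * (δ' * N ^ (p + 2)) ≤ δ' * ε / 8 * N ^ (p + 3) := h6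
          _ = ε / 8 * N * (δ' * N ^ (p + 2)) := by ring
      calc (B.card : ℝ) * N ≤ ε / 8 * N * N := mul_le_mul_of_nonneg_right h8 hN0
        _ = _ := by ring
    set W' : Finset V := W \ B with hW'
    have hW'W : W' ⊆ W := Finset.sdiff_subset
    -- reduction to `W'`
    have hred : ∀ cls : V → ℕ, ∑ x ∈ W, ∑ y ∈ W, ff G cls x y ≤
        ∑ x ∈ W', ∑ y ∈ W', ff G cls x y + ε / 2 * N ^ 2 := by
      intro cls
      have hs : ∀ g : V → ℝ, ∑ x ∈ W, g x = ∑ x ∈ W', g x + ∑ x ∈ B, g x := by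
        intro g
        rw [hW', Finset.sum_sdiff hBW]
      have h1 : ∑ x ∈ W, ∑ y ∈ W, ff G cls x y = ∑ x ∈ W', ∑ y ∈ W', ff G cls x y +
          ∑ x ∈ W', ∑ y ∈ B, ff G cls x y + ∑ x ∈ B, ∑ y ∈ W, ff G cls x y := by
        rw [hs (fun x => ∑ y ∈ W, ff G cls x y)]
        rw [← Finset.sum_add_distrib]
        congr 1
        refine Finset.sum_congr rfl fun x _ => ?_
        exact hs (fun y => ff G cls x y)
      have h2 : ∑ x ∈ W', ∑ y ∈ B, ff G cls x y ≤ 2 * ((W'.card : ℝ) * B.card) := by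
        calc ∑ x ∈ W', ∑ y ∈ B, ff G cls x y ≤ ∑ x ∈ W', ∑ y ∈ B, (2 : ℝ) :=
              Finset.sum_le_sum fun x _ => Finset.sum_le_sum fun y _ => ff_le G cls x y
          _ = _ := by
              simp only [Finset.sum_const, nsmul_eq_mul]
              ring
      have h3 : ∑ x ∈ B, ∑ y ∈ W, ff G cls x y ≤ 2 * ((B.card : ℝ) * W.card) := by
        calc ∑ x ∈ B, ∑ y ∈ W, ff G cls x y ≤ ∑ x ∈ B, ∑ y ∈ W, (2 : ℝ) :=
              Finset.sum_le_sum fun x _ => Finset.sum_le_sum fun y _ => ff_le G cls x y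
          _ = _ := by
              simp only [Finset.sum_const, nsmul_eq_mul]
              ring
      have hW'N : (W'.card : ℝ) ≤ N := by
        refine le_trans ?_ hN
        exact_mod_cast Finset.card_le_card hW'W
      have hb0 : (0 : ℝ) ≤ B.card := Nat.cast_nonneg _
      have h4 : (W'.card : ℝ) * B.card ≤ B.card * N := by
        rw [mul_comm]; exact mul_le_mul_of_nonneg_left hW'N hb0
      have h5 : (B.card : ℝ) * W.card ≤ B.card * N := mul_le_mul_of_nonneg_left hN hb0
      rw [h1]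
      linarith
    rcases W'.eq_empty_or_nonempty with he | hne
    · refine ⟨fun _ => 0, fun _ => Nat.succ_pos _, ?_⟩
      have := hred (fun _ => 0)
      rw [he] at this
      simp only [Finset.sum_empty] at this
      have hN2 : 0 ≤ ε / 2 * N ^ 2 := by positivity
      linarith
    · obtain ⟨a, haW, hamax⟩ := Finset.exists_max_image W' (fun v => (nb G W' v).card) hne
      have haB : a ∉ B := (Finset.mem_sdiff.1 haW).2
      have haWW : a ∈ W := hW'W haW
      set Q : Finset V := nb G W' a with hQ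
      have hQW' : Q ⊆ W' := fun y hy => (mem_nb.1 hy).1
      have hQsub : Q ⊆ nb G W a := fun y hy =>
        mem_nb.2 ⟨hW'W (mem_nb.1 hy).1, (mem_nb.1 hy).2⟩
      have hQN : (Q.card : ℝ) ≤ N := by
        refine le_trans ?_ hN
        exact_mod_cast Finset.card_le_card (hQW'.trans hW'W)
      have hQK : ((KK G Q (p + 2)).card : ℝ) ≤ δ' * N ^ (p + 2) := by
        have h1 : ¬ δ' * N ^ (p + 2) < ((KK G (nb G W a) (p + 2)).card : ℝ) := by
          intro hh
          exact haB (Finset.mem_filter.2 ⟨haWW, hh⟩)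
        refine le_trans ?_ (not_lt.1 h1)
        exact_mod_cast Finset.card_le_card (KK_mono hQsub (p + 2))
      obtain ⟨c', hc', hsum⟩ := H V G Q N hQN hQK
      refine ⟨fun v => if v ∈ Q then c' v else p + 1, ?_, ?_⟩
      · intro x
        by_cases hx : x ∈ Q
        · simp only [hx, if_true]
          exact (hc' x).trans (Nat.lt_succ_self _)
        · simp only [hx, if_false]
          exact Nat.lt_succ_self _
      · refine (hred _).trans ?_
        set cls : V → ℕ := fun v => if v ∈ Q then c' v else p + 1 with hcls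
        have hin : ∀ v ∈ Q, cls v = c' v := fun v hv => by simp [hcls, hv]
        have hout : ∀ v, v ∉ Q → cls v = p + 1 := fun v hv => by simp [hcls, hv]
        set U : Finset V := W' \ Q with hU
        have hUn : ∀ v ∈ U, v ∉ Q := fun v hv => (Finset.mem_sdiff.1 hv).2
        have hs : ∀ g : V → ℝ, ∑ x ∈ W', g x = ∑ x ∈ U, g x + ∑ x ∈ Q, g x := by
          intro g
          rw [hU, Finset.sum_sdiff hQW']
        have hQQ : ∑ x ∈ Q, ∑ y ∈ Q, ff G cls x y = ∑ x ∈ Q, ∑ y ∈ Q, ff G c' x y := by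
          refine Finset.sum_congr rfl fun x hx => Finset.sum_congr rfl fun y hy => ?_
          unfold ff
          rw [hin x hx, hin y hy]
        have hQU : ∑ x ∈ Q, ∑ y ∈ U, ff G cls x y =
            ∑ x ∈ U, ∑ y ∈ Q, (ind (G.Adj x y) - 1) := by
          rw [Finset.sum_comm]
          refine Finset.sum_congr rfl fun y hy => Finset.sum_congr rfl fun x hx => ?_
          unfold ff
          have h1 : cls x ≠ cls y := by
            rw [hin x hx, hout y (hUn y hy)]
            exact (hc' x).ne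
          rw [ind_pos h1, ind_neg (p := G.Adj x y ∧ cls x = cls y) (fun hh => h1 hh.2),
            ind_congr (G.adj_comm x y)]
          ring
        have hUQ : ∑ x ∈ U, ∑ y ∈ Q, ff G cls x y =
            ∑ x ∈ U, ∑ y ∈ Q, (ind (G.Adj x y) - 1) := by
          refine Finset.sum_congr rfl fun x hx => Finset.sum_congr rfl fun y hy => ?_
          unfold ff
          have h1 : cls x ≠ cls y := by
            rw [hin y hy, hout x (hUn x hx)]
            exact (hc' y).ne'
          rw [ind_pos h1, ind_neg (p := G.Adj x y ∧ cls x = cls y) (fun hh => h1 hh.2)]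
          ring
        have hUU : ∑ x ∈ U, ∑ y ∈ U, ff G cls x y =
            ∑ x ∈ U, ∑ y ∈ U, 2 * ind (G.Adj x y) := by
          refine Finset.sum_congr rfl fun x hx => Finset.sum_congr rfl fun y hy => ?_
          unfold ff
          have h1 : cls x = cls y := by
            rw [hout y (hUn y hy), hout x (hUn x hx)]
          rw [ind_neg (p := cls x ≠ cls y) (fun hh => hh h1),
            ind_congr (p := G.Adj x y ∧ cls x = cls y) (q := G.Adj x y)
              ⟨fun hh => hh.1, fun hh => ⟨hh, h1⟩⟩]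
          ring
        have htot : ∑ x ∈ W', ∑ y ∈ W', ff G cls x y =
            ∑ x ∈ Q, ∑ y ∈ Q, ff G c' x y +
              2 * ∑ x ∈ U, (((nb G W' x).card : ℝ) - Q.card) := by
          rw [hs (fun x => ∑ y ∈ W', ff G cls x y)]
          rw [Finset.sum_congr (s₁ := U) rfl (fun x _ => hs (fun y => ff G cls x y)),
            Finset.sum_congr (s₁ := Q) rfl (fun x _ => hs (fun y => ff G cls x y))]
          rw [Finset.sum_add_distrib, Finset.sum_add_distrib, hQQ, hQU, hUQ, hUU]
          have h1 : ∑ x ∈ U, (((nb G W' x).card : ℝ) - Q.card) =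
              ∑ x ∈ U, ∑ y ∈ U, ind (G.Adj x y) + ∑ x ∈ U, ∑ y ∈ Q, (ind (G.Adj x y) - 1) := by
            rw [← Finset.sum_add_distrib]
            refine Finset.sum_congr rfl fun x _ => ?_
            rw [card_nb, hs (fun y => ind (G.Adj x y)), Finset.sum_sub_distrib]
            simp only [Finset.sum_const, nsmul_eq_mul]
            ring
          rw [h1]
          have h2 : ∑ x ∈ U, ∑ y ∈ U, 2 * ind (G.Adj x y) =
              2 * ∑ x ∈ U, ∑ y ∈ U, ind (G.Adj x y) := by
            rw [Finset.mul_sum]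
            exact Finset.sum_congr rfl fun x _ => by rw [Finset.mul_sum]
          rw [h2]
          ring
        have hneg : ∑ x ∈ U, (((nb G W' x).card : ℝ) - Q.card) ≤ 0 := by
          refine Finset.sum_nonpos fun x hx => ?_
          have hxW : x ∈ W' := (Finset.mem_sdiff.1 hx).1
          have := hamax x hxW
          have h2 : ((nb G W' x).card : ℝ) ≤ Q.card := by exact_mod_cast this
          linarith
        rw [htot]
        linarith

end Pool.Agent.Q240.Dom
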